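import Pool.Agent.Helper95.CFMoves

/-!
MP_717b2e_co, upper bound: module B1, the boundary move b1.
The tail lemma `tail_up` is taken as the explicit hypothesis `htail`.
-/

namespace Pool.Agent.Helper95.CF

open Finset

variable {n : ℕ}

/-- boundary move b1 -/
theorem move_b1_of (htail : ∀ M : NCM n, M.p 0 ≠ n →
      (∀ x, 0 < x → x < n → n < M.p x → M.p x ≤ x + n) → Val M 0)
    (hn : n % 2 = 1) {M N : NCM n} {K : ℕ} {a b : ℕ → ℕ} (C : Chords M K a b)
    {j : ℕ} (hij : 1 < j) (hj : j ≤ K) (hp : j % 2 = 0)
    (S : St M N a b 1 j) (hne : b 1 + 1 < b j)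
    (hl : a 1 + b 1 ≤ n + 1) (hu : n + 1 ≤ a j + b j) (hc : n + 1 < a 1 + b j) :
    Val N (-1) := by
  obtain ⟨e1, -⟩ := St.ends C (le_refl 1) hij hj S
  have a1 := C.a_pos (i := 1) (by omega) (by omega)
  have b1 := C.b_pos (i := 1) (by omega) (by omega)
  have aj := C.ga.mono hij (by omega)
  have bj := C.gb.mono hij (by omega)
  have ajn := C.a_le hj
  have bjn := C.b_le hj
  have pbj := C.gb.par j (by omega)
  have e1' := N.p_symm (by omega) e1
  obtain ⟨p0, hp0⟩ : ∃ p0, p0 = a 1 - 1 := ⟨_, rfl⟩
  obtain ⟨p1, hp1⟩ : ∃ p1, p1 = 2 * n - b j + 1 := ⟨_, rfl⟩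
  obtain ⟨p2, hp2⟩ : ∃ p2, p2 = N.p p1 := ⟨_, rfl⟩
  obtain ⟨p3, hp3⟩ : ∃ p3, p3 = 2 * n - b 1 := ⟨_, rfl⟩
  rw [← hp0, ← hp3] at e1 e1'
  have e4 := hp2.symm
  have e4' := N.p_symm (by omega) e4
  have hin := S.inB p1 (by omega) (by omega)
  have hne2 := N.p_ne (x := p1) (by omega)
  rw [e4] at hin hne2
  have par2 := N.p_parity (x := p1) (by omega)
  rw [e4] at par2
  have B : Bg n 4 ![p0, p1, p2, p3] (allp 4) N.p := by
    apply Bg.mk'
    · simp [Fin.forall_fin_succ]
      omega
    · simp
      omega
    · exact N.nc
    · simp [Fin.forall_fin_succ, Fin.exists_fin_succ, e1, e1', e4, e4']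
    · simp [Fin.forall_fin_succ]
      refine ⟨?_, ?_, ?_⟩
      · intro x h1 h2
        have h3 := N.nc.nc p0 x h1 (by omega) (by omega)
        refine ⟨h3.1, ?_⟩
        by_contra h4
        have h5 : N.p (N.p x) = x := N.p_p (by omega)
        have h6 := S.inB (N.p x) (by
          by_contra h7
          have : N.p x = p1 := by omega
          rw [this] at h5
          omega) (by omega)
        rw [h5] at h6
        have h7 : x = 2 * n - b j + 1 := by omega
        omega
      · intro x h1 h2
        have h3 := N.nc.nc p1 x h1 (by omega) (by omega)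
        omega
      · intro x h1 h2
        have h3 := S.inB x (by omega) (by omega)
        refine ⟨?_, by omega⟩
        by_contra h4
        have h5 : N.p (N.p x) = x := N.p_p (by omega)
        have h6 : N.p x ≠ p1 := by
          intro h; rw [h] at h5; omega
        have h7 : N.p x ≠ p2 := by
          intro h; rw [h] at h5; omega
        have h8 := N.nc.nc p1 (N.p x) (by omega) (by omega) (by omega)
        rw [h5] at h8
        omega
  have S0 : Sym 4 (allp 4) ![3, 2, 1, 0] := by constructor <;> decide
  have S1 : Sym 4 (allp 4) ![1, 0, 3, 2] := by constructor <;> decide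
  have hN : N = ins B S0 := by
    apply eq_ins
    · simp [Fin.forall_fin_succ, e1, e1', e4, e4']
    · intro x hx h; rfl
  have hadj : (H n).Adj (ins B S1) (ins B S0) := by
    apply ins_adj hn B S1 S0 (a := 0) (b := 1) (c := 2) (d := 3)
    · exact ⟨rfl, rfl, rfl, rfl, by decide, by decide, by decide, rfl, rfl, rfl, rfl, by decide⟩
    · simp; omega
    · simp; omega
    · simp; omega
    · simp; omega
  have f0 : (ins B S1).p p0 = p1 := ins_named B S1 (i := 0) rfl
  have fu : ∀ z, z < 2 * n → ¬ (z = p0 ∨ z = p1 ∨ z = p2 ∨ z = p3) → (ins B S1).p z = N.p z := by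
    intro z hz h0
    apply ins_unnamed B S1 hz
    simp [Fin.forall_fin_succ]
    omega
  have hU := U_ins_sub B S0 S1
  simp [Fin.sum_univ_four] at hU
  rw [← hN] at hU hadj
  generalize ins B S1 = N' at *
  have hUU : U N' - U N = -4 := by
    rw [hU]
    rw [ws_comm n p3 p0, ws_comm n p3 p2, ws_comm n p2 p1, ws_comm n p1 p0]
    rw [ws_X (x := p0) (y := p3) (by omega) (by omega) (by omega),
      ws_X (x := p0) (y := p1) (by omega) (by omega) (by omega),
      ws_B (n := n) (x := p1) (y := p2) (by omega) (by omega),
      ws_B (n := n) (x := p2) (y := p3) (by omega) (by omega)]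
    rw [if_neg (by omega), if_pos (by omega)]
    norm_num
  have ga0 := C.ga.z
  have gaT := C.ga.t
  have hg0 : ∀ z, z + 1 < a 1 → M.p z + 1 < a 1 := by
    intro z hz
    exact (C.gapA 0 (by omega) z (by omega) hz).2
  have h0M : p0 ≠ 0 → M.p 0 + 1 < a 1 := by
    intro h
    exact hg0 0 (by omega)
  have hval : Val N' 0 := by
    apply htail
    · by_cases h : p0 = 0
      · rw [← h, f0]
        omega
      · rw [fu 0 (by omega) (by omega), S.out 0 (by omega) (by omega) (by omega)]
        have := h0M h
        omega
    · intro x hx0 hxn hx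
      by_cases h : x = p0
      · rw [h, f0]
        omega
      · have hx2 : x < 2 * n := by omega
        rw [fu x hx2 (by omega)] at hx ⊢
        by_cases h1 : a 1 ≤ x ∧ x + 1 < a j
        · have := S.inA x h1.1 h1.2
          omega
        · rw [S.out x hx2 h1 (by omega)] at hx ⊢
          by_cases h2 : x + 1 < a 1
          · have := hg0 x h2
            omega
          · by_cases h3 : x + 1 = a j
            · have h4 := C.ch j (by omega) hj
              have h5 : a j - 1 = x := by omega
              rw [h5] at h4
              omega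
            · obtain ⟨k, k1, k2, k3, k4⟩ := C.ga.locate (i := j) (j := K + 1) (z := x) (by omega)
                (by omega) (by omega) (by omega)
              by_cases h6 : x + 1 < a (k + 1)
              · have h7 := C.gapA k (by omega) x k3 h6
                have h8 := C.ga.mono' (i := k + 1) (j := K + 1) (by omega) (by omega)
                omega
              · by_cases h9 : k = K
                · subst h9
                  omega
                · have h10 := C.ch (k + 1) (by omega) (by omega)
                  have h11 : a (k + 1) - 1 = x := by omega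
                  rw [h11] at h10
                  have h12 := C.ga.mono' (i := j) (j := k + 1) (by omega) (by omega)
                  have h13 := C.gb.mono' (i := j) (j := k + 1) (by omega) (by omega)
                  omega
  exact Val.step (DistLe.of_adj hadj.symm) hval (by rw [hUU]; norm_num)

end Pool.Agent.Helper95.CF
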