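import Pool.Agent.Helper95.CFMoves

/-! Module FI of MP_717b2e_co: final averaging. -/

namespace Pool.Agent.Helper95.CF

open Finset

variable {n : ℕ}

lemma rot_full (M : NCM n) : rot^[2 * n] M = M := by
  apply NCM.ext_p
  intro x hx
  have h := rotk_p M (2 * n) hx
  rw [Nat.add_mod_right, Nat.add_mod_right, Nat.mod_eq_of_lt hx, Nat.mod_eq_of_lt (M.nc.lt x hx)] at h
  exact h

theorem final_of (hn : n % 2 = 1) (h3 : 3 ≤ n)
    (hsum : ∀ M : NCM n, ∑ t ∈ range n, U (rot^[t] M) = 2 * (n : ℤ) * (n - 1))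
    (hloc : ∀ M : NCM n, ∃ v v' : ℤ, Val M v ∧ Val (rot M) v' ∧ v + v' ≤ 1)
    (hhalf : ∀ (M : NCM n) (v : ℤ), Val (rot^[n] M) v ↔ Val M v)
    (hsweep : ∀ R R' : NCM n, R.p 0 = n → R'.p 0 = n →
      ∃ k : ℕ, DistLe R (rot^[n - 3] R') k ∧ 2 * (k : ℤ) ≤ 2 * (n - 3) + U R + U R')
    (M N : NCM n) : DistLe M N (3 * n - 7) := by
  have hex : ∀ M : NCM n, ∃ v, Val M v ∧ ∀ z, Val M z → v ≤ z := by
    intro M
    apply Int.exists_least_of_bdd
    · refine ⟨-U M, fun z hz => ?_⟩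
      obtain ⟨R, k, _, _, h⟩ := hz
      have h1 := U_nonneg R
      have h2 := U_nonneg M
      omega
    · obtain ⟨v, _, hv, _⟩ := hloc M
      exact ⟨v, hv⟩
  choose δ hδ1 hδ2 using hex
  have hδs : ∀ M, δ M + δ (rot M) ≤ 1 := by
    intro M
    obtain ⟨v, v', h1, h2, h3⟩ := hloc M
    have := hδ2 M v h1
    have := hδ2 (rot M) v' h2
    omega
  have hδh : ∀ M, δ (rot^[n] M) = δ M := by
    intro M
    apply le_antisymm
    · exact hδ2 _ _ ((hhalf M _).2 (hδ1 M))
    · exact hδ2 _ _ ((hhalf M _).1 (hδ1 _))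
  have hD : ∀ M, 2 * ∑ t ∈ range n, δ (rot^[t] M) ≤ (n : ℤ) - 1 := by
    intro M
    have h1 : ∑ t ∈ range n, δ (rot^[t + 1] M) = ∑ t ∈ range n, δ (rot^[t] M) := by
      have e1 := Finset.sum_range_succ (fun t => δ (rot^[t] M)) n
      have e2 := Finset.sum_range_succ' (fun t => δ (rot^[t] M)) n
      have e3 : δ (rot^[n] M) = δ (rot^[0] M) := hδh M
      omega
    have h2 : ∑ t ∈ range n, (δ (rot^[t] M) + δ (rot^[t + 1] M)) ≤ ∑ _t ∈ range n, (1 : ℤ) := by
      apply Finset.sum_le_sum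
      intro t _
      have := hδs (rot^[t] M)
      rw [← Function.iterate_succ_apply' rot t M] at this
      exact this
    rw [Finset.sum_add_distrib, h1, Finset.sum_const, card_range, nsmul_eq_mul, mul_one] at h2
    omega
  -- the length for each line
  have hL : ∀ t, ∃ L : ℕ, DistLe (rot^[t] M) (rot^[t] N) L ∧
      2 * (L : ℤ) ≤ U (rot^[t] M) + U (rot^[t] (rot^[n + 3] N)) - 4 + 2 * ((n : ℤ) - 3) +
        2 * δ (rot^[t] M) + 2 * δ (rot^[t] (rot^[n + 3] N)) := by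
    intro t
    obtain ⟨R, k, hR, hk, hk'⟩ := hδ1 (rot^[t] M)
    obtain ⟨R', k', hR', hl, hl'⟩ := hδ1 (rot^[t] (rot^[n + 3] N))
    obtain ⟨m, hm, hm'⟩ := hsweep R R' hR hR'
    have h1 := hl.rotk hn (n - 3)
    have h2 : rot^[n - 3] (rot^[t] (rot^[n + 3] N)) = rot^[t] N := by
      rw [← Function.iterate_add_apply, ← Function.iterate_add_apply]
      have : n - 3 + t + (n + 3) = t + 2 * n := by omega
      rw [this, Function.iterate_add_apply, rot_full]
    rw [h2] at h1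
    refine ⟨k + m + k', (hk.trans hm).trans h1.symm, ?_⟩
    push_cast
    omega
  choose L hL1 hL2 using hL
  have hS : ∑ t ∈ range n, 2 * (L t : ℤ) < ∑ _t ∈ range n, 2 * (3 * (n : ℤ) - 6) := by
    have h1 := Finset.sum_le_sum (fun t (_ : t ∈ range n) => hL2 t)
    have h2 := hD M
    have h3' := hD (rot^[n + 3] N)
    have h4 := hsum M
    have h5 := hsum (rot^[n + 3] N)
    refine lt_of_le_of_lt h1 ?_
    simp only [Finset.sum_add_distrib, Finset.sum_sub_distrib, ← Finset.mul_sum, Finset.sum_const,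
      card_range, nsmul_eq_mul, h4, h5]
    have h6 : (3 : ℤ) ≤ n := by exact_mod_cast h3
    nlinarith
  obtain ⟨t, ht, hlt⟩ := Finset.exists_lt_of_sum_lt hS
  have hLt : L t ≤ 3 * n - 7 := by omega
  have htn : t < n := Finset.mem_range.1 ht
  have h1 := ((hL1 t).mono hLt).rotk hn (2 * n - t)
  rw [← Function.iterate_add_apply, ← Function.iterate_add_apply] at h1
  have e : 2 * n - t + t = 2 * n := by omega
  rw [e, rot_full, rot_full] at h1
  exact h1

end Pool.Agent.Helper95.CF
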